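import Pool.Agent.W744.BU.Stm

/-! Matrix entries of operators (part ENT of project BU). -/

set_option autoImplicit false

open Set Filter Topology Pool.Agent.W744.BU

namespace Pool.Agent.W740.BU.ENT

variable {I : Type}

theorem inner_e (i : I) (x : L2 I) : inner ℂ (e i) x = x i := by
  classical
  unfold e
  rw [lp.inner_single_left]
  simp

theorem entry_eq (a : Op I) (i j : I) : entry a i j = inner ℂ (e i) (a (e j)) :=
  (inner_e i _).symm

theorem norm_e (i : I) : ‖e i‖ = 1 := by
  classical
  unfold e
  rw [lp.norm_single (by norm_num)]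
  exact norm_one

theorem hasSum_e (x : L2 I) : HasSum (fun j => x j • e j) x := by
  classical
  have h := lp.hasSum_single (p := 2) (by norm_num) x
  refine h.congr_fun ?_
  intro j
  unfold e
  rw [← lp.single_smul, smul_eq_mul, mul_one]

theorem hasSum_apply (a : Op I) (x : L2 I) (i : I) :
    HasSum (fun j => entry a i j * x j) ((a x) i) := by
  have h2 := a.hasSum (hasSum_e x)
  have h3 := (innerSL ℂ (e i)).hasSum h2
  rw [innerSL_apply_apply, inner_e] at h3
  refine h3.congr_fun ?_
  intro j
  change _ = inner ℂ (e i) (a (x j • e j))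
  rw [map_smul, inner_smul_right, inner_e, mul_comm]
  rfl

theorem main : S_ENT := by
  classical
  refine ⟨fun I a b h => ?_, fun I a i j => ?_, fun I a b i j => ?_, fun I a i j => ?_,
    fun I i j => ?_⟩
  · ext x i
    refine (hasSum_apply a x i).unique ?_
    simp only [h]
    exact hasSum_apply b x i
  · rw [entry_eq, entry_eq, ContinuousLinearMap.star_eq_adjoint,
      ContinuousLinearMap.adjoint_inner_right]
    exact (inner_conj_symm _ _).symm
  · exact hasSum_apply a (b (e j)) i
  · refine (lp.norm_apply_le_norm (by norm_num) (a (e j)) i).trans ?_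
    refine (a.le_opNorm (e j)).trans ?_
    rw [norm_e, mul_one]
  · change (e j : L2 I) i = _
    unfold e
    rw [lp.single_apply, Pi.single_apply]

end Pool.Agent.W740.BU.ENT
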